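import Pool.Agent.X198.SuitTop

/-!
# A subgroup of the countable-support product over `ω₁` without suitable set
-/

set_option autoImplicit false

namespace Pool.Agent.Results.MP_7b4824_gt.NoSuitable

open Set Pool.Agent.X198.SuitB Pool.Agent.Helper761.Om

/-- The well-ordered set of countable ordinals. -/
abbrev Om1 : Type := (Cardinal.aleph 1).ord.ToType

/-- The topology of `G^⋆` on the full product: a base is formed by the sets of all elements that
agree with a given element `x` below a given index `a` (the cosets `x U_a`). -/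
abbrev starTop (G : Om1 → Type) : TopologicalSpace (∀ a, G a) :=
  TopologicalSpace.generateFrom {V | ∃ (x : ∀ a, G a) (a : Om1), V = {y | ∀ b < a, y b = x b}}

/-- `S` is a suitable set for the topological group `H`: it is a discrete subspace, `S ∪ {1}` is
closed and the subgroup generated by `S` is dense. -/
def IsSuitable (H : Type) [Group H] [TopologicalSpace H] (S : Set H) : Prop :=
  DiscreteTopology S ∧ IsClosed (S ∪ {1}) ∧ Dense ((Subgroup.closure S : Subgroup H) : Set H)

theorem om1_countable (a : Om1) : (Iio a).Countable := by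
  have h := Cardinal.mk_Iio_toType_ord_lt (c := Cardinal.aleph 1) a
  have h2 : Cardinal.mk (Iio a) ≤ Cardinal.aleph0 := by
    have h3 : Cardinal.aleph 1 = Order.succ Cardinal.aleph0 := by
      rw [← Cardinal.succ_aleph0]
    exact Order.lt_succ_iff.1 (lt_of_lt_of_eq h h3)
  exact Cardinal.le_aleph0_iff_set_countable.1 h2

theorem om1_bounded (A : Set Om1) (hA : A.Countable) : ∃ b, ∀ a ∈ A, a < b := by
  by_contra hcon
  push Not at hcon
  have h2 : (univ : Set Om1) = ⋃ a ∈ A, insert a (Iio a) := by
    apply Subset.antisymm _ (subset_univ _)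
    intro b _
    obtain ⟨a, ha, hba⟩ := hcon b
    rw [mem_iUnion₂]
    refine ⟨a, ha, ?_⟩
    rcases eq_or_lt_of_le hba with h | h
    · exact Or.inl h
    · exact Or.inr h
  have h3 : (univ : Set Om1).Countable := by
    rw [h2]
    exact hA.biUnion (fun a _ => (om1_countable a).insert a)
  have h4 : Cardinal.mk Om1 = Cardinal.aleph 1 := by
    simp
  have h5 : Cardinal.mk Om1 ≤ Cardinal.aleph0 := by
    have := Cardinal.le_aleph0_iff_set_countable.2 h3
    rwa [Cardinal.mk_univ] at this
  rw [h4] at h5
  exact absurd h5 (not_le.2 Cardinal.aleph0_lt_aleph_one)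

theorem open_star {G : Om1 → Type} {U : Set (∀ a, G a)} (hU : @IsOpen _ (starTop G) U)
    {x : ∀ a, G a} (hx : x ∈ U) : ∃ a, ∀ y, (∀ b < a, y b = x b) → y ∈ U := by
  induction hU with
  | basic s hs =>
    obtain ⟨z, a, rfl⟩ := hs
    exact ⟨a, fun y hy b hb => (hy b hb).trans (hx b hb)⟩
  | univ =>
    obtain ⟨b, -⟩ := om1_bounded ∅ countable_empty
    exact ⟨b, fun _ _ => mem_univ _⟩
  | inter s t _ _ hs ht =>
    obtain ⟨a, ha⟩ := hs hx.1
    obtain ⟨b, hb⟩ := ht hx.2
    exact ⟨max a b, fun y hy => ⟨ha y fun c hc => hy c (hc.trans_le (le_max_left _ _)),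
      hb y fun c hc => hy c (hc.trans_le (le_max_right _ _))⟩⟩
  | sUnion S _ ih =>
    obtain ⟨t, ht, hxt⟩ := hx
    obtain ⟨a, ha⟩ := ih t ht hxt
    exact ⟨a, fun y hy => ⟨t, ht, ha y hy⟩⟩

/-- There are non-trivial groups indexed by the countable ordinals and a subgroup of the subgroup
of countable-support elements of their product, with the topology of `G^⋆`, without suitable set. -/
theorem result :
    ∃ (G : Om1 → Type) (_ : ∀ a, Group (G a)) (_ : ∀ a, Nontrivial (G a))
      (H : Subgroup (∀ a, G a)), (∀ x ∈ H, {a | x a ≠ 1}.Countable) ∧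
      ∀ S : Set H, ¬ @IsSuitable H _ ((starTop G).induced Subtype.val) S := by
  obtain ⟨C, hC⟩ := exists_ladder om1_countable
  refine ⟨fun _ => Zm, inferInstance, inferInstance, BB C, ?_, ?_⟩
  · intro x hx
    refine Subgroup.closure_induction (p := fun x _ => {a | x a ≠ 1}.Countable) ?_ ?_ ?_ ?_ hx
    · rintro x (⟨a, rfl⟩ | ⟨γ, rfl⟩)
      · refine (countable_singleton a).mono fun i hi => ?_
        by_contra h
        exact hi (chi_apply_ne h)
      · refine ((om1_countable γ).mono (hC.sub γ)).mono fun i hi => ?_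
        by_contra h
        exact hi (ind_notMem h)
    · simp
    · intro x y _ _ hx hy
      refine (hx.union hy).mono fun i hi => ?_
      by_contra h
      rw [mem_union, not_or] at h
      apply hi
      rw [Pi.mul_apply, not_not.1 h.1, not_not.1 h.2, one_mul]
    · intro x _ hx
      refine hx.mono fun i hi => ?_
      by_contra h
      apply hi
      rw [Pi.inv_apply, not_not.1 h, inv_one]
  · rintro S ⟨h1, h2, h3⟩
    refine no_suitable_top (C := C) om1_countable om1_bounded hC
      ((starTop fun _ => Zm).induced Subtype.val) ?_ ?_ S h1 h2 h3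
    · rintro b U ⟨V, hV, rfl⟩ hb
      obtain ⟨a, ha⟩ := open_star hV hb
      exact ⟨a, fun y hy => ha y.fn fun c hc => hy hc⟩
    · intro b δ
      exact ⟨{y | ∀ c < δ, y c = b.fn c},
        TopologicalSpace.isOpen_generateFrom_of_mem ⟨b.fn, δ, rfl⟩, rfl⟩

end Pool.Agent.Results.MP_7b4824_gt.NoSuitable
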